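import Pool.Agent.helper63.FV.KZ0

/-!
# MP_51fbee_al : Koszul complex of `R`: length, homology in degree zero, cone sequences
-/

namespace FV

universe u

variable {k : Type u} [Field k] {R : Type u} [CommRing R] [Algebra k R]
  {𝒜 : ℕ → Submodule k R} [GradedAlgebra 𝒜]

theorem kos_length (xs : List R) (hxs : ∀ x ∈ xs, x ∈ 𝒜 1) (l m : ℤ) (hl : xs.length < l) :
    (kosR xs hxs).gr l m = ⊥ := by
  induction xs generalizing l m with
  | nil =>
    rw [eq_bot_iff]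
    intro x hx
    obtain ⟨r, hr⟩ := KZr_exists hxs x
    have hl' : (0 : ℤ) < l := by simpa using hl
    rw [hr, KZr_mem, if_neg (by omega)] at hx
    rw [hr, (Submodule.mem_bot k).mp hx, KZr_zero]
    exact AddSubgroup.zero_mem _
  | cons y xs ih =>
    rw [eq_bot_iff]
    intro p hx
    have hl' : (xs.length : ℤ) + 1 < l := by simpa using hl
    obtain ⟨a, b, rfl⟩ := KZp_exists y xs hxs p
    obtain ⟨ha, hb⟩ := (KZp_mem y xs hxs a b l m).1 hx
    rw [ih (KZ_tail hxs) l m (by omega)] at ha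
    rw [ih (KZ_tail hxs) (l - 1) (m - 1) (by omega)] at hb
    have ha' : a = 0 := ha
    have hb' : b = 0 := hb
    rw [ha', hb', KZp_zero]
    exact AddSubgroup.zero_mem _

/-- homology in homological degree `0`, from the ring lemma -/
theorem kos_zero_of
    (hmul : ∀ (n : ℕ) (r : R), r ∈ 𝒜 (n + 1) →
      r ∈ Submodule.span k {x : R | ∃ a ∈ 𝒜 n, ∃ b ∈ 𝒜 1, x = a * b})
    (xs : List R) (hxs : ∀ x ∈ xs, x ∈ 𝒜 1)
    (hspan : Submodule.span k {x | x ∈ xs} = 𝒜 1) (m : ℤ) (hm : m ≠ 0) :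
    (kosR xs hxs).bdg.Van 0 m := by
  intro x hx _
  have hx' : x ∈ (kosR xs hxs).gr 0 m := hx
  obtain ⟨r, hr, rfl⟩ := (KZemb_mem xs hxs m x).1 hx'
  by_cases hm0 : 0 ≤ m
  · rw [if_pos hm0] at hr
    obtain ⟨n, rfl⟩ : ∃ n : ℕ, m = n + 1 := ⟨(m - 1).toNat, by omega⟩
    rw [show ((n : ℤ) + 1).toNat = n + 1 by omega] at hr
    have key : ∀ r : R, r ∈ Submodule.span k {x : R | ∃ a ∈ 𝒜 n, ∃ b ∈ 𝒜 1, x = a * b} →
        ∃ Y ∈ (kosR xs hxs).gr (0 + 1) (n + 1), (kosR xs hxs).d Y = KZemb xs hxs r := by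
      intro r hr
      induction hr using Submodule.span_induction with
      | mem x hx =>
        obtain ⟨a, ha, b, hb, rfl⟩ := hx
        rw [← hspan] at hb
        clear hr
        induction hb using Submodule.span_induction with
        | mem y hy =>
          obtain ⟨Y, hY, hd⟩ := KZemb_bd xs hxs y hy n a ha
          rw [mul_comm a y]
          exact ⟨Y, by rw [zero_add]; exact hY, hd⟩
        | zero =>
          rw [mul_zero, KZemb_zero]
          exact ⟨0, AddSubgroup.zero_mem _, map_zero _⟩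
        | add y z _ _ h1 h2 =>
          obtain ⟨Y, hY, hdY⟩ := h1
          obtain ⟨Z, hZ, hdZ⟩ := h2
          refine ⟨Y + Z, AddSubgroup.add_mem _ hY hZ, ?_⟩
          rw [map_add, hdY, hdZ, mul_add, KZemb_add]
        | smul c y _ h1 =>
          obtain ⟨Y, hY, hdY⟩ := h1
          refine ⟨algebraMap k R c • Y, ?_, ?_⟩
          · have h0 : algebraMap k R c ∈ 𝒜 0 := SetLike.algebraMap_mem_graded 𝒜 c
            have := (kosR xs hxs).smulR_mem h0 hY
            simpa using this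
          · rw [(kosR xs hxs).d_smulR, hdY, ← KZemb_smul]
            congr 1
            rw [Algebra.smul_def]; ring
      | zero =>
        rw [KZemb_zero]
        exact ⟨0, AddSubgroup.zero_mem _, map_zero _⟩
      | add y z _ _ h1 h2 =>
        obtain ⟨Y, hY, hdY⟩ := h1
        obtain ⟨Z, hZ, hdZ⟩ := h2
        refine ⟨Y + Z, AddSubgroup.add_mem _ hY hZ, ?_⟩
        rw [map_add, hdY, hdZ, KZemb_add]
      | smul c y _ h1 =>
        obtain ⟨Y, hY, hdY⟩ := h1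
        refine ⟨algebraMap k R c • Y, ?_, ?_⟩
        · have h0 : algebraMap k R c ∈ 𝒜 0 := SetLike.algebraMap_mem_graded 𝒜 c
          have := (kosR xs hxs).smulR_mem h0 hY
          simpa using this
        · rw [(kosR xs hxs).d_smulR, hdY, ← KZemb_smul, Algebra.smul_def]
    exact key r (hmul n r hr)
  · rw [if_neg hm0] at hr
    rw [(Submodule.mem_bot k).mp hr, KZemb_zero]
    exact ⟨0, AddSubgroup.zero_mem _, map_zero _⟩

/-- cone sequences, `a ≥ 1` -/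
theorem kos_ses_pos (p : ℕ) [ExpChar R p] (e : ℕ) (x : R) (hx : x ∈ 𝒜 1) (xs : List R)
    (hxs : ∀ y ∈ xs, y ∈ 𝒜 1) (hxs' : ∀ y ∈ x :: xs, y ∈ 𝒜 1)
    {M : DGA k} (π : DGA.Hom M (ofRing 𝒜)) (a : ℤ) :
    Nonempty (SES (DGMod.ver π p e a (kosR xs hxs)) (DGMod.ver π p e a (kosR (x :: xs) hxs'))
      (DGMod.ver π p e (a - 1) (kosR xs hxs)) 0 0 (-1) 0) := by
  refine ⟨{ f := KZinl x xs hxs', g := KZsnd x xs hxs', f_mem := ?_, g_mem := ?_, f_d := ?_,
            g_d := ?_, f_smul := ?_, g_smul := ?_, inj := ?_, gf := ?_, exact := ?_, surj := ?_ }⟩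
  · intro n m y hy
    rw [add_zero, add_zero]
    have hy' : y ∈ (kosR xs hxs).gr n ((p ^ e : ℕ) * m + a) := hy
    show KZp x xs hxs' y 0 ∈ (kosR (x :: xs) hxs').gr n ((p ^ e : ℕ) * m + a)
    rw [KZp_mem]
    exact ⟨hy', AddSubgroup.zero_mem _⟩
  · intro n m y hy
    rw [add_zero]
    obtain ⟨c, b, rfl⟩ := KZp_exists x xs hxs' y
    have hy' : KZp x xs hxs' c b ∈ (kosR (x :: xs) hxs').gr n ((p ^ e : ℕ) * m + a) := hy
    rw [KZp_mem] at hy'
    show b ∈ (kosR xs hxs).gr (n + -1) ((p ^ e : ℕ) * m + (a - 1))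
    rw [← sub_eq_add_neg, ← add_sub_assoc]
    exact hy'.2
  · intro y
    rw [sg_zero, one_smul]
    show (kosR (x :: xs) hxs').d (KZp x xs hxs' y 0) = KZp x xs hxs' ((kosR xs hxs).d y) 0
    rw [KZp_d, smul_zero, map_zero, add_zero, neg_zero]
  · intro y
    obtain ⟨c, b, rfl⟩ := KZp_exists x xs hxs' y
    rw [sg_neg, sg_one]
    show (kosR xs hxs).d b = (-1 : ℤ) • (- (kosR xs hxs).d b)
    rw [neg_smul, one_smul, neg_neg]
  · intro r (y : (kosR xs hxs).N)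
    show KZp x xs hxs' ((iterateFrobenius R p e (π.toR r)) • y) 0 =
      (iterateFrobenius R p e (π.toR (M.εp 0 r))) • KZp x xs hxs' y 0
    rw [KZp_smul, smul_zero]
    rfl
  · intro r y
    obtain ⟨c, b, rfl⟩ := KZp_exists x xs hxs' y
    have h1 : M.εp (-1) r = M.ε r := by
      rw [DGA.εp, if_neg (by decide)]
    rw [h1]
    show (iterateFrobenius R p e (π.toR r)) • b = (iterateFrobenius R p e (π.toR (M.ε r))) • b
    rw [π.toR_ε]
  · intro n m y _ h
    have h' : KZp x xs hxs' y 0 = KZp x xs hxs' 0 0 := h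
    exact (KZp_inj _ _ _ _ _ _ _ h').1
  · intro y
    rfl
  · intro n m y hy h
    obtain ⟨c, b, rfl⟩ := KZp_exists x xs hxs' y
    have hb : b = 0 := h
    have hy' : KZp x xs hxs' c b ∈ (kosR (x :: xs) hxs').gr n ((p ^ e : ℕ) * m + a) := hy
    rw [KZp_mem] at hy'
    rw [sub_zero, sub_zero]
    refine ⟨c, hy'.1, ?_⟩
    rw [hb]; rfl
  · intro n m y hy
    have hy' : y ∈ (kosR xs hxs).gr n ((p ^ e : ℕ) * m + (a - 1)) := hy
    refine ⟨KZp x xs hxs' 0 y, ?_, rfl⟩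
    rw [sub_zero, sub_neg_eq_add]
    show KZp x xs hxs' 0 y ∈ (kosR (x :: xs) hxs').gr (n + 1) ((p ^ e : ℕ) * m + a)
    rw [KZp_mem]
    refine ⟨AddSubgroup.zero_mem _, ?_⟩
    rw [add_sub_cancel_right, add_sub_assoc]
    exact hy'

/-- cone sequences, `a = 0` -/
theorem kos_ses_zero (p : ℕ) [ExpChar R p] (e : ℕ) (x : R) (hx : x ∈ 𝒜 1) (xs : List R)
    (hxs : ∀ y ∈ xs, y ∈ 𝒜 1) (hxs' : ∀ y ∈ x :: xs, y ∈ 𝒜 1)
    {M : DGA k} (π : DGA.Hom M (ofRing 𝒜)) :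
    Nonempty (SES (DGMod.ver π p e 0 (kosR xs hxs)) (DGMod.ver π p e 0 (kosR (x :: xs) hxs'))
      (DGMod.ver π p e ((p ^ e : ℕ) - 1) (kosR xs hxs)) 0 0 (-1) (-1)) := by
  obtain ⟨S⟩ := kos_ses_pos p e x hx xs hxs hxs' π 0
  refine ⟨{ f := S.f, g := S.g, f_mem := S.f_mem, g_mem := ?_, f_d := S.f_d,
            g_d := S.g_d, f_smul := S.f_smul, g_smul := S.g_smul, inj := S.inj, gf := S.gf,
            exact := S.exact, surj := ?_ }⟩
  · intro n m y hy
    have h := S.g_mem n m y hy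
    have h' : S.g y ∈ (kosR xs hxs).gr (n + -1) ((p ^ e : ℕ) * (m + 0) + (0 - 1)) := h
    show S.g y ∈ (kosR xs hxs).gr (n + -1) ((p ^ e : ℕ) * (m + -1) + ((p ^ e : ℕ) - 1))
    rw [show ((p ^ e : ℕ) : ℤ) * (m + -1) + ((p ^ e : ℕ) - 1) = (p ^ e : ℕ) * (m + 0) + (0 - 1) by
      ring]
    exact h'
  · intro n m y hy
    have hy' : y ∈ (kosR xs hxs).gr n ((p ^ e : ℕ) * m + ((p ^ e : ℕ) - 1)) := hy
    have hy2 : y ∈ (DGMod.ver π p e (0 - 1) (kosR xs hxs)).gr n (m + 1) := by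
      show y ∈ (kosR xs hxs).gr n ((p ^ e : ℕ) * (m + 1) + (0 - 1))
      rw [show ((p ^ e : ℕ) : ℤ) * (m + 1) + (0 - 1) = (p ^ e : ℕ) * m + ((p ^ e : ℕ) - 1) by ring]
      exact hy'
    obtain ⟨z, hz, hgz⟩ := S.surj n (m + 1) y hy2
    refine ⟨z, ?_, hgz⟩
    rw [sub_zero] at hz
    rw [sub_neg_eq_add m 1]
    exact hz

end FV
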