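import Pool.Agent.helper63.FV.KZ0

/-!
# MP_51fbee_al : finiteness of the Koszul homology
-/

namespace FV

universe u

variable {k : Type u} [Field k] {R : Type u} [CommRing R] [Algebra k R]
  {𝒜 : ℕ → Submodule k R} [GradedAlgebra 𝒜]

/-! ### homogeneous components -/

variable (𝒜) in
/-- projection to the piece of degree `m` -/
noncomputable def KZproj (m : ℤ) : R →+ R :=
  if 0 ≤ m then GradedRing.proj 𝒜 m.toNat else 0

lemma KZproj_mem (n : ℕ) (m : ℤ) (hm : m = n) (r : R) : KZproj 𝒜 m r ∈ 𝒜 n := by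
  subst hm
  rw [KZproj, if_pos (by omega), GradedRing.proj_apply]
  simp

lemma KZproj_one : KZproj 𝒜 0 (1 : R) = 1 := by
  rw [KZproj, if_pos le_rfl, GradedRing.proj_apply]
  have := DirectSum.decompose_of_mem_same 𝒜 (i := 0) (SetLike.GradedOne.one_mem (A := 𝒜))
  simpa using this

lemma KZproj_mul (m : ℤ) (n : ℕ) (r s : R) (hs : s ∈ 𝒜 n) :
    KZproj 𝒜 m (r * s) = KZproj 𝒜 (m - n) r * s := by
  by_cases hm : 0 ≤ m
  · rw [KZproj, if_pos hm, GradedRing.proj_apply, DirectSum.coe_decompose_mul_of_right_mem 𝒜 _ hs]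
    by_cases hmn : n ≤ m.toNat
    · rw [if_pos hmn, KZproj, if_pos (by omega), GradedRing.proj_apply,
        show (m - (n : ℤ)).toNat = m.toNat - n by omega]
    · rw [if_neg hmn, KZproj, if_neg (by omega)]
      simp
  · rw [KZproj, if_neg hm, KZproj, if_neg (by omega)]
    simp

/-- the homogeneous component of bidegree `(l, m)` -/
noncomputable def KZcomp : (xs : List R) → (hxs : ∀ x ∈ xs, x ∈ 𝒜 1) → (l m : ℤ) →
    (kosR xs hxs).N →+ (kosR xs hxs).N
  | [], h, l, m =>
    { toFun := fun x => if l = 0 then KZr h (KZproj 𝒜 m (show R from x)) else 0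
      map_zero' := by
        split_ifs
        · exact (congrArg (KZr h) (map_zero (KZproj 𝒜 m)))
        · rfl
      map_add' := fun x y => by
        split_ifs
        · exact (congrArg (KZr h) (map_add (KZproj 𝒜 m) (show R from x) (show R from y)))
        · rw [add_zero] }
  | x :: xs, h, l, m =>
    { toFun := fun p => KZp x xs h (KZcomp xs (KZ_tail h) l m (KZfst x xs h p))
        (KZcomp xs (KZ_tail h) (l - 1) (m - 1) (KZsnd x xs h p))
      map_zero' := by simp only [map_zero]; rfl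
      map_add' := fun p q => by simp only [map_add, KZp_add] }

lemma KZcomp_nil (hxs : ∀ y ∈ ([] : List R), y ∈ 𝒜 1) (l m : ℤ) (r : R) :
    KZcomp [] hxs l m (KZr hxs r) = if l = 0 then KZr hxs (KZproj 𝒜 m r) else 0 := rfl

lemma KZcomp_cons (x : R) (xs : List R) (hxs : ∀ y ∈ x :: xs, y ∈ 𝒜 1) (l m : ℤ)
    (a b : (kosR xs (KZ_tail hxs)).N) :
    KZcomp (x :: xs) hxs l m (KZp x xs hxs a b) =
      KZp x xs hxs (KZcomp xs (KZ_tail hxs) l m a) (KZcomp xs (KZ_tail hxs) (l - 1) (m - 1) b) :=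
  rfl

lemma KZcomp_smul (xs : List R) (hxs : ∀ x ∈ xs, x ∈ 𝒜 1) (l m l' m' : ℤ) (r : R)
    (x : (kosR xs hxs).N) (hx : x ∈ (kosR xs hxs).gr l' m') :
    KZcomp xs hxs l m (r • x) = if l = l' then KZproj 𝒜 (m - m') r • x else 0 := by
  induction xs generalizing l m l' m' with
  | nil =>
    obtain ⟨s, hs⟩ := KZr_exists hxs x
    rw [hs, KZr_mem] at hx
    rw [hs, KZr_smul, KZcomp_nil, KZr_smul]
    by_cases h : l' = 0 ∧ 0 ≤ m'
    · rw [if_pos h] at hx
      rw [h.1]
      by_cases hl : l = 0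
      · rw [if_pos hl, if_pos hl, KZproj_mul m _ r s hx, Int.toNat_of_nonneg h.2]
      · rw [if_neg hl, if_neg hl]
    · rw [if_neg h] at hx
      rw [(Submodule.mem_bot k).mp hx, mul_zero, mul_zero, map_zero, KZr_zero, ite_self, ite_self]
  | cons y xs ih =>
    obtain ⟨a, b, rfl⟩ := KZp_exists y xs hxs x
    rw [KZp_mem] at hx
    rw [KZp_smul, KZcomp_cons, ih (KZ_tail hxs) l m l' m' a hx.1,
      ih (KZ_tail hxs) (l - 1) (m - 1) (l' - 1) (m' - 1) b hx.2]
    by_cases hl : l = l'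
    · rw [if_pos hl, if_pos (by omega), if_pos hl, KZp_smul, show m - 1 - (m' - 1) = m - m' by ring]
    · rw [if_neg hl, if_neg (by omega), if_neg hl, KZp_zero]

lemma KZcomp_self (xs : List R) (hxs : ∀ x ∈ xs, x ∈ 𝒜 1) (l m : ℤ)
    (x : (kosR xs hxs).N) (hx : x ∈ (kosR xs hxs).gr l m) : KZcomp xs hxs l m x = x := by
  have h := KZcomp_smul xs hxs l m l m 1 x hx
  rwa [one_smul, if_pos rfl, sub_self, KZproj_one, one_smul] at h

/-! ### homotopies -/

lemma KZ_homotopy (xs : List R) (hxs : ∀ x ∈ xs, x ∈ 𝒜 1) (y : R) (hy : y ∈ xs) :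
    ∃ h : (kosR xs hxs).N →+ (kosR xs hxs).N, (∀ (r : R) z, h (r • z) = r • h z) ∧
      (∀ l m, ∀ z ∈ (kosR xs hxs).gr l m, h z ∈ (kosR xs hxs).gr (l + 1) (m + 1)) ∧
      ∀ z, (kosR xs hxs).d (h z) + h ((kosR xs hxs).d z) = y • z := by
  induction xs with
  | nil => simp at hy
  | cons x xs ih =>
    by_cases hyx : y = x
    · subst hyx
      refine ⟨{ toFun := fun p => KZp y xs hxs 0 (KZfst y xs hxs p), map_zero' := ?_,
                map_add' := ?_ }, ?_, ?_, ?_⟩
      · rw [map_zero]; rfl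
      · intro p q
        rw [map_add, KZp_add, add_zero]
      · intro r z
        obtain ⟨a, b, rfl⟩ := KZp_exists y xs hxs z
        show KZp y xs hxs 0 (r • a) = r • KZp y xs hxs 0 a
        rw [KZp_smul, smul_zero]
      · intro l m z hz
        obtain ⟨a, b, rfl⟩ := KZp_exists y xs hxs z
        rw [KZp_mem] at hz
        show KZp y xs hxs 0 a ∈ _
        rw [KZp_mem]
        refine ⟨AddSubgroup.zero_mem _, ?_⟩
        rw [add_sub_cancel_right, add_sub_cancel_right]
        exact hz.1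
      · intro z
        obtain ⟨a, b, rfl⟩ := KZp_exists y xs hxs z
        show (kosR (y :: xs) hxs).d (KZp y xs hxs 0 a) +
          KZp y xs hxs 0 ((kosR xs (KZ_tail hxs)).d a + y • b) = _
        rw [KZp_d, KZp_add, KZp_smul, map_zero, zero_add, add_zero]
        congr 1
        abel
    · have hy' : y ∈ xs := by
        rcases List.mem_cons.1 hy with h | h
        · exact absurd h hyx
        · exact h
      obtain ⟨h, h1, h2, h3⟩ := ih (KZ_tail hxs) hy'
      refine ⟨{ toFun := fun p => KZp x xs hxs (h (KZfst x xs hxs p)) (- h (KZsnd x xs hxs p)),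
                map_zero' := ?_, map_add' := ?_ }, ?_, ?_, ?_⟩
      · rw [map_zero, map_zero, map_zero, map_zero, neg_zero]; rfl
      · intro p q
        rw [map_add, map_add, KZp_add, map_add, map_add, neg_add]
      · intro r z
        obtain ⟨a, b, rfl⟩ := KZp_exists x xs hxs z
        show KZp x xs hxs (h (r • a)) (- h (r • b)) = r • KZp x xs hxs (h a) (- h b)
        rw [KZp_smul, smul_neg, h1, h1]
      · intro l m z hz
        obtain ⟨a, b, rfl⟩ := KZp_exists x xs hxs z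
        rw [KZp_mem] at hz
        show KZp x xs hxs (h a) (- h b) ∈ _
        rw [KZp_mem]
        refine ⟨h2 _ _ _ hz.1, AddSubgroup.neg_mem _ ?_⟩
        have := h2 _ _ _ hz.2
        rwa [show l - 1 + 1 = l + 1 - 1 by ring, show m - 1 + 1 = m + 1 - 1 by ring] at this
      · intro z
        obtain ⟨a, b, rfl⟩ := KZp_exists x xs hxs z
        show (kosR (x :: xs) hxs).d (KZp x xs hxs (h a) (- h b)) +
          KZp x xs hxs (h ((kosR xs (KZ_tail hxs)).d a + x • b))
            (- h (- (kosR xs (KZ_tail hxs)).d b)) = _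
        rw [KZp_d, KZp_add, KZp_smul, map_add, h1]
        congr 1
        · rw [← h3 a, smul_neg]
          abel
        · rw [← h3 b, map_neg, map_neg]
          abel

lemma KZ_cycle_bd
    (hmul : ∀ (n : ℕ) (r : R), r ∈ 𝒜 (n + 1) →
      r ∈ Submodule.span k {x : R | ∃ a ∈ 𝒜 n, ∃ b ∈ 𝒜 1, x = a * b})
    (xs : List R) (hxs : ∀ x ∈ xs, x ∈ 𝒜 1)
    (hspan : Submodule.span k {x | x ∈ xs} = 𝒜 1) (l m : ℤ) (z : (kosR xs hxs).N)
    (hz : z ∈ (kosR xs hxs).gr l m) (hdz : (kosR xs hxs).d z = 0) (n : ℕ) (r : R)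
    (hr : r ∈ 𝒜 (n + 1)) :
    ∃ Y ∈ (kosR xs hxs).gr (l + 1) (m + n + 1), (kosR xs hxs).d Y = r • z := by
  have hk : ∀ (c : k) (s : R), (∃ Y ∈ (kosR xs hxs).gr (l + 1) (m + n + 1),
      (kosR xs hxs).d Y = s • z) → ∃ Y ∈ (kosR xs hxs).gr (l + 1) (m + n + 1),
      (kosR xs hxs).d Y = (c • s) • z := by
    rintro c s ⟨Y, hY, hdY⟩
    refine ⟨algebraMap k R c • Y, ?_, ?_⟩
    · have h0 : algebraMap k R c ∈ 𝒜 0 := SetLike.algebraMap_mem_graded 𝒜 c
      have := (kosR xs hxs).smulR_mem h0 hY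
      simpa using this
    · rw [(kosR xs hxs).d_smulR, hdY, Algebra.smul_def, mul_smul]
  have hadd : ∀ (s t : R), (∃ Y ∈ (kosR xs hxs).gr (l + 1) (m + n + 1),
      (kosR xs hxs).d Y = s • z) → (∃ Y ∈ (kosR xs hxs).gr (l + 1) (m + n + 1),
      (kosR xs hxs).d Y = t • z) → ∃ Y ∈ (kosR xs hxs).gr (l + 1) (m + n + 1),
      (kosR xs hxs).d Y = (s + t) • z := by
    rintro s t ⟨Y, hY, hdY⟩ ⟨Z, hZ, hdZ⟩
    exact ⟨Y + Z, AddSubgroup.add_mem _ hY hZ, by rw [map_add, hdY, hdZ, add_smul]⟩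
  have h00 : ∃ Y ∈ (kosR xs hxs).gr (l + 1) (m + n + 1), (kosR xs hxs).d Y = (0 : R) • z :=
    ⟨0, AddSubgroup.zero_mem _, by rw [map_zero, zero_smul]⟩
  have hgen : ∀ a ∈ 𝒜 n, ∀ b ∈ 𝒜 1, ∃ Y ∈ (kosR xs hxs).gr (l + 1) (m + n + 1),
      (kosR xs hxs).d Y = (a * b) • z := by
    intro a ha b hb
    rw [← hspan] at hb
    induction hb using Submodule.span_induction with
    | mem y hy =>
      obtain ⟨h, h1, h2, h3⟩ := KZ_homotopy xs hxs y hy
      refine ⟨a • h z, ?_, ?_⟩
      · have := (kosR xs hxs).smulR_mem ha (h2 _ _ _ hz)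
        rwa [show m + 1 + (n : ℤ) = m + n + 1 by ring] at this
      · rw [(kosR xs hxs).d_smulR]
        have := h3 z
        rw [hdz, map_zero, add_zero] at this
        rw [this, smul_smul]
    | zero => rw [mul_zero]; exact h00
    | add y y' _ _ h1 h2 => rw [mul_add]; exact hadd _ _ h1 h2
    | smul c y _ h1 => rw [mul_smul_comm]; exact hk c _ h1
  have := hmul n r hr
  clear hr
  induction this using Submodule.span_induction with
  | mem x hx =>
    obtain ⟨a, ha, b, hb, rfl⟩ := hx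
    exact hgen a ha b hb
  | zero => exact h00
  | add y y' _ _ h1 h2 => exact hadd _ _ h1 h2
  | smul c y _ h1 => exact hk c _ h1

/-! ### finiteness -/

instance KZ_noeth [IsNoetherianRing R] (xs : List R) (hxs : ∀ x ∈ xs, x ∈ 𝒜 1) :
    IsNoetherian R (kosR xs hxs).N := by
  induction xs with
  | nil =>
    let e : R ≃ₗ[R] (kosR [] hxs).N :=
      { toFun := fun r => KZr hxs r
        invFun := fun r => r
        map_add' := fun _ _ => rfl
        map_smul' := fun _ _ => rfl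
        left_inv := fun _ => rfl
        right_inv := fun _ => rfl }
    exact isNoetherian_of_linearEquiv e
  | cons x xs ih =>
    have := ih (KZ_tail hxs)
    let e : ((kosR xs (KZ_tail hxs)).N × (kosR xs (KZ_tail hxs)).N) ≃ₗ[R] (kosR (x :: xs) hxs).N :=
      { toFun := fun p => KZp x xs hxs p.1 p.2
        invFun := fun p => (KZfst x xs hxs p, KZsnd x xs hxs p)
        map_add' := fun _ _ => rfl
        map_smul' := fun _ _ => rfl
        left_inv := fun _ => rfl
        right_inv := fun _ => rfl }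
    exact isNoetherian_of_linearEquiv e

theorem kos_bounded_of
    (hmul : ∀ (n : ℕ) (r : R), r ∈ 𝒜 (n + 1) →
      r ∈ Submodule.span k {x : R | ∃ a ∈ 𝒜 n, ∃ b ∈ 𝒜 1, x = a * b})
    (h : StdGraded 𝒜) (xs : List R) (hxs : ∀ x ∈ xs, x ∈ 𝒜 1)
    (hspan : Submodule.span k {x | x ∈ xs} = 𝒜 1) :
    ∃ c : ℤ, ∀ l m, c < m → (kosR xs hxs).bdg.Van l m := by
  classical
  have hft : Algebra.FiniteType k R := by
    refine ⟨xs.toFinset, ?_⟩
    rw [← h.gen]
    apply le_antisymm
    · apply Algebra.adjoin_mono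
      intro x hx
      exact hxs x (by simpa using hx)
    · rw [Algebra.adjoin_le_iff]
      intro x hx
      have hx' : x ∈ Submodule.span k {x | x ∈ xs} := by rw [hspan]; exact hx
      have h1 : Submodule.span k {x | x ∈ xs} ≤
          Subalgebra.toSubmodule (Algebra.adjoin k (xs.toFinset : Set R)) := by
        rw [Submodule.span_le]
        intro y hy
        apply Algebra.subset_adjoin
        simpa using hy
      exact h1 hx'
  have hnr : IsNoetherianRing R := Algebra.FiniteType.isNoetherianRing k R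
  let S : Set (kosR xs hxs).N := {w | ∃ l m : ℤ, w ∈ (kosR xs hxs).gr l m ∧ (kosR xs hxs).d w = 0}
  obtain ⟨s, hsS, hs⟩ := (Submodule.fg_span_iff_fg_span_finset_subset S).1
    (IsNoetherian.noetherian (Submodule.span R S))
  have hdeg : ∀ w : (kosR xs hxs).N, ∃ l m : ℤ, w ∈ s →
      w ∈ (kosR xs hxs).gr l m ∧ (kosR xs hxs).d w = 0 := by
    intro w
    by_cases hw : w ∈ s
    · obtain ⟨l, m, h1⟩ := hsS hw
      exact ⟨l, m, fun _ => h1⟩
    · exact ⟨0, 0, fun h => absurd h hw⟩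
  choose L M' hLM using hdeg
  obtain ⟨c, hc⟩ := (s.image M').exists_le
  refine ⟨c, ?_⟩
  intro l m hm (z : (kosR xs hxs).N) hz hdz
  have hz1 : z ∈ (kosR xs hxs).gr l m := hz
  have hz2 : (kosR xs hxs).d z = 0 := hdz
  have hzS : z ∈ Submodule.span R S := Submodule.subset_span ⟨l, m, hz1, hz2⟩
  rw [hs] at hzS
  obtain ⟨f, hf⟩ := (Submodule.mem_span_finset'.1 hzS)
  have h1 : z = ∑ a : s, (if l = L a then KZproj 𝒜 (m - M' a) (f a) • (a : (kosR xs hxs).N) else 0) := by
    have h2 := congrArg (KZcomp xs hxs l m) hf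
    rw [map_sum, KZcomp_self xs hxs l m z hz1] at h2
    rw [← h2]
    refine Finset.sum_congr rfl fun a _ => ?_
    exact KZcomp_smul xs hxs l m (L a) (M' a) (f a) a (hLM a a.2).1
  have h3 : ∀ a : s, ∃ Y ∈ (kosR xs hxs).gr (l + 1) m, (kosR xs hxs).d Y =
      (if l = L a then KZproj 𝒜 (m - M' a) (f a) • (a : (kosR xs hxs).N) else 0) := by
    intro a
    by_cases hl : l = L a
    · have hMa : M' a ≤ c := hc _ (Finset.mem_image_of_mem _ a.2)
      obtain ⟨n, hn⟩ : ∃ n : ℕ, m - M' a = (n + 1 : ℕ) := ⟨(m - M' a - 1).toNat, by omega⟩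
      obtain ⟨h4, h5⟩ := hLM a a.2
      obtain ⟨Y, hY, hdY⟩ := KZ_cycle_bd hmul xs hxs hspan (L a) (M' a) a h4 h5 n
        (KZproj 𝒜 (m - M' a) (f a)) (KZproj_mem _ _ hn _)
      refine ⟨Y, ?_, ?_⟩
      · rw [show M' a + (n : ℤ) + 1 = m by push_cast at hn; linarith, ← hl] at hY
        exact hY
      · rw [hdY, if_pos hl]
    · exact ⟨0, AddSubgroup.zero_mem _, by rw [map_zero, if_neg hl]⟩
  choose Y hY hdY using h3
  refine ⟨∑ a : s, Y a, AddSubgroup.sum_mem _ (fun a _ => hY a), ?_⟩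
  show (kosR xs hxs).d (∑ a : s, Y a) = z
  rw [map_sum, h1]
  exact Finset.sum_congr rfl fun a _ => hdY a

end FV
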