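import Pool.Agent.helper63.FV.KZ1

/-!
# MP_51fbee_al : augmentation of the Koszul complex
-/

namespace FV

universe u

variable {k : Type u} [Field k] {R : Type u} [CommRing R] [Algebra k R]
  {𝒜 : ℕ → Submodule k R} [GradedAlgebra 𝒜]

lemma KZ_irr_iff (r : R) : r ∈ irr 𝒜 ↔ GradedRing.proj 𝒜 0 r = 0 := by
  rw [irr]
  exact HomogeneousIdeal.mem_irrelevant_iff 𝒜 r

lemma KZ_irr_mem (n : ℕ) (hn : n ≠ 0) (r : R) (hr : r ∈ 𝒜 n) : r ∈ irr 𝒜 := by
  rw [KZ_irr_iff, GradedRing.proj_apply]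
  exact DirectSum.decompose_of_mem_ne 𝒜 hr hn

/-- the coordinate of the trivial subset -/
def KZaug : (xs : List R) → (hxs : ∀ x ∈ xs, x ∈ 𝒜 1) → (kosR xs hxs).N →+ R
  | [], _ =>
    { toFun := fun x => (show R from x)
      map_zero' := rfl
      map_add' := fun _ _ => rfl }
  | x :: xs, h => (KZaug xs (KZ_tail h)).comp (KZfst x xs h)

lemma KZaug_nil (hxs : ∀ y ∈ ([] : List R), y ∈ 𝒜 1) (r : R) : KZaug [] hxs (KZr hxs r) = r := rfl

lemma KZaug_cons (x : R) (xs : List R) (hxs : ∀ y ∈ x :: xs, y ∈ 𝒜 1)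
    (a b : (kosR xs (KZ_tail hxs)).N) :
    KZaug (x :: xs) hxs (KZp x xs hxs a b) = KZaug xs (KZ_tail hxs) a := rfl

lemma KZaug_smul (xs : List R) (hxs : ∀ x ∈ xs, x ∈ 𝒜 1) (r : R) (z : (kosR xs hxs).N) :
    KZaug xs hxs (r • z) = r * KZaug xs hxs z := by
  induction xs with
  | nil => rfl
  | cons y xs ih =>
    obtain ⟨a, b, rfl⟩ := KZp_exists y xs hxs z
    rw [KZp_smul, KZaug_cons, KZaug_cons, ih]

lemma KZaug_emb (xs : List R) (hxs : ∀ x ∈ xs, x ∈ 𝒜 1) (r : R) :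
    KZaug xs hxs (KZemb xs hxs r) = r := by
  induction xs with
  | nil => rfl
  | cons y xs ih => rw [KZemb_cons, KZaug_cons, ih]

lemma KZaug_d (xs : List R) (hxs : ∀ x ∈ xs, x ∈ 𝒜 1) (z : (kosR xs hxs).N) :
    KZaug xs hxs ((kosR xs hxs).d z) ∈ irr 𝒜 := by
  induction xs with
  | nil => exact Ideal.zero_mem _
  | cons y xs ih =>
    obtain ⟨a, b, rfl⟩ := KZp_exists y xs hxs z
    rw [KZp_d, KZaug_cons, map_add, KZaug_smul]
    refine Ideal.add_mem _ (ih (KZ_tail hxs) a) (Ideal.mul_mem_right _ _ ?_)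
    exact KZ_irr_mem 1 one_ne_zero y (hxs y (by simp))

lemma KZaug_mem (xs : List R) (hxs : ∀ x ∈ xs, x ∈ 𝒜 1) (l m : ℤ) (z : (kosR xs hxs).N)
    (hz : z ∈ (kosR xs hxs).gr l m) :
    KZaug xs hxs z ∈ (if l = 0 ∧ 0 ≤ m then 𝒜 m.toNat else ⊥ : Submodule k R) := by
  induction xs with
  | nil => exact hz
  | cons y xs ih =>
    obtain ⟨a, b, rfl⟩ := KZp_exists y xs hxs z
    rw [KZp_mem] at hz
    rw [KZaug_cons]
    exact ih (KZ_tail hxs) a hz.1

lemma KZaug_irr (xs : List R) (hxs : ∀ x ∈ xs, x ∈ 𝒜 1) (l m : ℤ) (z : (kosR xs hxs).N)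
    (hz : z ∈ (kosR xs hxs).gr l m) (h : (l, m) ≠ ((0 : ℤ), (0 : ℤ))) :
    KZaug xs hxs z ∈ irr 𝒜 := by
  have h1 := KZaug_mem xs hxs l m z hz
  by_cases h2 : l = 0 ∧ 0 ≤ m
  · rw [if_pos h2] at h1
    refine KZ_irr_mem m.toNat ?_ _ h1
    intro h3
    apply h
    rw [h2.1, show m = 0 by omega]
  · rw [if_neg h2] at h1
    rw [(Submodule.mem_bot k).mp h1]
    exact Ideal.zero_mem _

/-- the augmentation to the residue ring -/
def KZmk (xs : List R) (hxs : ∀ x ∈ xs, x ∈ 𝒜 1) : (kosR xs hxs).N →+ (R ⧸ irr 𝒜) :=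
  (Ideal.Quotient.mk (irr 𝒜)).toAddMonoidHom.comp (KZaug xs hxs)

lemma KZmk_eq_zero (xs : List R) (hxs : ∀ x ∈ xs, x ∈ 𝒜 1) (z : (kosR xs hxs).N) :
    KZmk xs hxs z = 0 ↔ KZaug xs hxs z ∈ irr 𝒜 :=
  Ideal.Quotient.eq_zero_iff_mem

lemma KZmk_smul (xs : List R) (hxs : ∀ x ∈ xs, x ∈ 𝒜 1) (r : R) (z : (kosR xs hxs).N) :
    KZmk xs hxs (r • z) = Ideal.Quotient.mk (irr 𝒜) r * KZmk xs hxs z := by
  show Ideal.Quotient.mk (irr 𝒜) (KZaug xs hxs (r • z)) = _
  rw [KZaug_smul, map_mul]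
  rfl

/-- the residue ring as a DG module, through the Frobenius -/
noncomputable def KZres {M : DGA k} (π : DGA.Hom M (ofRing 𝒜)) (p e : ℕ) [ExpChar R p]
    (he : ∀ i j, (i, j) ≠ ((0 : ℤ), (0 : ℤ)) → ∀ a ∈ M.gr i j,
      iterateFrobenius R p e (π.toR a) ∈ irr 𝒜) : DGMod M :=
  letI : Module M.A (R ⧸ irr 𝒜) := Module.compHom (R ⧸ irr 𝒜)
    ((Ideal.Quotient.mk (irr 𝒜)).comp ((iterateFrobenius R p e).comp π.toR))
  { N := R ⧸ irr 𝒜
    d := 0
    gr := fun l j => if l = 0 ∧ j = 0 then ⊤ else ⊥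
    smul_mem := fun {i j i' j' a x} ha hx => by
      by_cases h : (i, j) = ((0 : ℤ), (0 : ℤ))
      · obtain ⟨rfl, rfl⟩ := Prod.mk.inj h
        by_cases h' : i' = 0 ∧ j' = 0
        · rw [if_pos (by omega)]; exact AddSubgroup.mem_top _
        · rw [if_neg h'] at hx
          have hx0 : x = 0 := hx
          rw [hx0, smul_zero]
          exact AddSubgroup.zero_mem _
      · have h1 : a • x = 0 := by
          show Ideal.Quotient.mk (irr 𝒜) (iterateFrobenius R p e (π.toR a)) * x = 0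
          rw [Ideal.Quotient.eq_zero_iff_mem.2 (he i j h a ha), zero_mul]
        rw [h1]
        exact AddSubgroup.zero_mem _
    d_mem := fun {i j x} hx => by simp
    d_d := fun x => rfl
    d_smul := fun a x => by
      show (0 : R ⧸ irr 𝒜) = Ideal.Quotient.mk (irr 𝒜) (iterateFrobenius R p e (π.toR (M.d a))) * x
        + Ideal.Quotient.mk (irr 𝒜) (iterateFrobenius R p e (π.toR (M.ε a))) * 0
      rw [π.toR_d, map_zero, map_zero, zero_mul, mul_zero, add_zero] }

/-- the kernel of the augmentation -/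
noncomputable def KZker {M : DGA k} (π : DGA.Hom M (ofRing 𝒜)) (p e : ℕ) [ExpChar R p]
    (xs : List R) (hxs : ∀ x ∈ xs, x ∈ 𝒜 1) : DGMod M :=
  letI i1 : Module M.A (KZmk xs hxs).ker :=
    { smul := fun m z => ⟨iterateFrobenius R p e (π.toR m) • z.1, by
        have hz : KZmk xs hxs z.1 = 0 := z.2
        show KZmk xs hxs (iterateFrobenius R p e (π.toR m) • z.1) = 0
        rw [KZmk_smul, hz, mul_zero]⟩
      one_smul := fun z => Subtype.ext (by
        show iterateFrobenius R p e (π.toR 1) • z.1 = z.1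
        rw [map_one, map_one, one_smul])
      mul_smul := fun a b z => Subtype.ext (by
        show iterateFrobenius R p e (π.toR (a * b)) • z.1 =
          iterateFrobenius R p e (π.toR a) • iterateFrobenius R p e (π.toR b) • z.1
        rw [map_mul, map_mul, mul_smul])
      smul_zero := fun a => Subtype.ext (by
        show iterateFrobenius R p e (π.toR a) • (0 : (kosR xs hxs).N) = 0
        rw [smul_zero])
      smul_add := fun a z w => Subtype.ext (by
        show iterateFrobenius R p e (π.toR a) • (z.1 + w.1) =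
          iterateFrobenius R p e (π.toR a) • z.1 + iterateFrobenius R p e (π.toR a) • w.1
        rw [smul_add])
      add_smul := fun a b z => Subtype.ext (by
        show iterateFrobenius R p e (π.toR (a + b)) • z.1 =
          iterateFrobenius R p e (π.toR a) • z.1 + iterateFrobenius R p e (π.toR b) • z.1
        rw [map_add, map_add, add_smul])
      zero_smul := fun z => Subtype.ext (by
        show iterateFrobenius R p e (π.toR 0) • z.1 = 0
        rw [map_zero, map_zero, zero_smul]) }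
  { N := (KZmk xs hxs).ker
    mod := i1
    d := ((kosR xs hxs).d.comp (KZmk xs hxs).ker.subtype).codRestrict (KZmk xs hxs).ker
      (fun z => by
        show KZmk xs hxs ((kosR xs hxs).d z.1) = 0
        rw [KZmk_eq_zero]
        exact KZaug_d xs hxs z.1)
    gr := fun l j => ((kosR xs hxs).gr l ((p ^ e : ℕ) * j)).comap (KZmk xs hxs).ker.subtype
    smul_mem := fun {i j i' j' m x} hm hx => by
      have h := (DGMod.ver π p e 0 (kosR xs hxs)).smul_mem (i := i) (j := j) (i' := i') (j' := j')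
        (a := m) (x := x.1) hm (by
          show x.1 ∈ (kosR xs hxs).gr i' ((p ^ e : ℕ) * j' + 0)
          rw [add_zero]; exact hx)
      have h' : iterateFrobenius R p e (π.toR m) • x.1 ∈
        (kosR xs hxs).gr (i + i') ((p ^ e : ℕ) * (j + j') + 0) := h
      rw [add_zero] at h'
      exact h'
    d_mem := fun {i j x} hx => (kosR xs hxs).d_mem hx
    d_d := fun x => Subtype.ext ((kosR xs hxs).d_d x.1)
    d_smul := fun a x => Subtype.ext ((DGMod.ver π p e 0 (kosR xs hxs)).d_smul a x.1) }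

/-- the augmentation of the Koszul complex, after applying `V_0(q, -)` -/
theorem kos_aug_of (p : ℕ) [ExpChar R p] (e : ℕ) (h : StdGraded 𝒜) (xs : List R)
    (hxs : ∀ x ∈ xs, x ∈ 𝒜 1)
    (hzero : ∀ m : ℤ, m ≠ 0 → (kosR xs hxs).bdg.Van 0 m)
    {M : DGA k} (π : DGA.Hom M (ofRing 𝒜)) :
    ∃ (N' Kk : DGMod M), Nonempty (SES N' (DGMod.ver π p e 0 (kosR xs hxs)) Kk 0 0 0 0) ∧
      (∀ x, Kk.d x = 0) ∧
      (∀ i j, (i, j) ≠ ((0 : ℤ), (0 : ℤ)) → ∀ a ∈ M.gr i j, ∀ x : Kk.N, a • x = 0) ∧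
      Kk.gr 0 0 ≠ ⊥ ∧
      (∀ l m, l ≤ 0 → N'.bdg.Van l m) ∧
      (∀ l m, (kosR xs hxs).bdg.Van l ((p ^ e : ℕ) * m) → N'.bdg.Van l m) := by
  have hq : 0 < p ^ e := expChar_pow_pos R p e
  have he : ∀ i j, (i, j) ≠ ((0 : ℤ), (0 : ℤ)) → ∀ a ∈ M.gr i j,
      iterateFrobenius R p e (π.toR a) ∈ irr 𝒜 := by
    intro i j hij a ha
    have h1 := π.toR_mem ha
    rw [iterateFrobenius_def]
    have h2 : π.toR a ∈ irr 𝒜 := by
      by_cases h3 : i = 0 ∧ 0 ≤ j
      · rw [if_pos h3] at h1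
        refine KZ_irr_mem j.toNat ?_ _ h1
        intro h4
        apply hij
        rw [h3.1, show j = 0 by omega]
      · rw [if_neg h3] at h1
        rw [(Submodule.mem_bot k).mp h1]
        exact Ideal.zero_mem _
    exact Ideal.pow_mem_of_mem _ h2 _ hq
  -- lifting cycles of the kernel
  have hlift : ∀ l m, (0 ≤ l) → (kosR xs hxs).bdg.Van l ((p ^ e : ℕ) * m) →
      (KZker π p e xs hxs).bdg.Van l m := by
    intro l m hl hV x hx hdx
    have hx' : x.1 ∈ (kosR xs hxs).gr l ((p ^ e : ℕ) * m) := hx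
    have hdx' : (kosR xs hxs).d x.1 = 0 := congrArg Subtype.val hdx
    obtain ⟨y, hy, hdy⟩ := hV x.1 hx' hdx'
    have hy1 : y ∈ (kosR xs hxs).gr (l + 1) ((p ^ e : ℕ) * m) := hy
    have hy2 : KZmk xs hxs y = 0 := by
      rw [KZmk_eq_zero]
      refine KZaug_irr xs hxs _ _ y hy1 ?_
      intro h1
      have := (Prod.mk.inj h1).1
      omega
    exact ⟨⟨y, hy2⟩, hy1, Subtype.ext hdy⟩
  have hlow : ∀ l m, l ≤ 0 → (KZker π p e xs hxs).bdg.Van l m := by
    intro l m hl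
    rcases lt_or_eq_of_le hl with hl | rfl
    · intro x hx _
      have hx' : x.1 ∈ (kosR xs hxs).gr l ((p ^ e : ℕ) * m) := hx
      rw [KZ_neg xs hxs l _ (Or.inl hl)] at hx'
      have hx0 : x.1 = 0 := hx'
      refine ⟨0, AddSubgroup.zero_mem _, ?_⟩
      rw [map_zero]
      exact (Subtype.ext hx0).symm
    · by_cases hm : m = 0
      · subst hm
        intro x hx _
        have hx' : x.1 ∈ (kosR xs hxs).gr 0 ((p ^ e : ℕ) * 0) := hx
        rw [mul_zero, KZemb_mem] at hx'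
        obtain ⟨r, hr, hrx⟩ := hx'
        rw [if_pos le_rfl] at hr
        have h1 : KZmk xs hxs x.1 = 0 := x.2
        rw [KZmk_eq_zero, ← hrx, KZaug_emb, KZ_irr_iff, GradedRing.proj_apply] at h1
        have h2 := DirectSum.decompose_of_mem_same 𝒜 (i := 0) (x := r) (by simpa using hr)
        rw [h1] at h2
        have hx0 : x.1 = 0 := by rw [← hrx, ← h2, KZemb_zero]
        refine ⟨0, AddSubgroup.zero_mem _, ?_⟩
        rw [map_zero]
        exact (Subtype.ext hx0).symm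
      · apply hlift 0 m le_rfl
        apply hzero
        have : ((p ^ e : ℕ) : ℤ) ≠ 0 := by exact_mod_cast hq.ne'
        exact mul_ne_zero this hm
  refine ⟨KZker π p e xs hxs, KZres π p e he, ⟨?_⟩, fun x => rfl, ?_, ?_, hlow, ?_⟩
  · refine { f := (KZmk xs hxs).ker.subtype, g := KZmk xs hxs, f_mem := ?_, g_mem := ?_, f_d := ?_,
             g_d := ?_, f_smul := ?_, g_smul := ?_, inj := ?_, gf := ?_, exact := ?_, surj := ?_ }
    · intro n m x hx
      have hx' : x.1 ∈ (kosR xs hxs).gr n ((p ^ e : ℕ) * m) := hx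
      show x.1 ∈ (kosR xs hxs).gr (n + 0) ((p ^ e : ℕ) * (m + 0) + 0)
      rw [add_zero, add_zero, add_zero]
      exact hx'
    · intro n m x hx
      have hx' : x ∈ (kosR xs hxs).gr n ((p ^ e : ℕ) * m + 0) := hx
      show KZmk xs hxs x ∈ (if n + 0 = 0 ∧ m + 0 = 0 then ⊤ else ⊥ : AddSubgroup (R ⧸ irr 𝒜))
      by_cases h1 : n + 0 = 0 ∧ m + 0 = 0
      · rw [if_pos h1]; exact AddSubgroup.mem_top _
      · rw [if_neg h1]
        have h2 : KZmk xs hxs x = 0 := by
          rw [KZmk_eq_zero]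
          refine KZaug_irr xs hxs _ _ x hx' ?_
          intro h3
          obtain ⟨h4, h5⟩ := Prod.mk.inj h3
          apply h1
          refine ⟨by omega, ?_⟩
          rw [add_zero] at h5 ⊢
          rcases mul_eq_zero.1 h5 with h6 | h6
          · exact absurd (by exact_mod_cast h6) hq.ne'
          · exact h6
        rw [h2]
        exact AddSubgroup.zero_mem _
    · intro x
      rw [sg_zero, one_smul]
      rfl
    · intro x
      rw [sg_zero, one_smul]
      show (0 : R ⧸ irr 𝒜) = KZmk xs hxs ((kosR xs hxs).d x)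
      exact ((KZmk_eq_zero xs hxs _).2 (KZaug_d xs hxs x)).symm
    · intro r x
      rfl
    · intro r (x : (kosR xs hxs).N)
      show KZmk xs hxs (iterateFrobenius R p e (π.toR r) • x) =
        Ideal.Quotient.mk (irr 𝒜) (iterateFrobenius R p e (π.toR (M.εp 0 r))) * KZmk xs hxs x
      rw [KZmk_smul]
      rfl
    · intro n m x _ hx
      exact Subtype.ext hx
    · intro x
      exact x.2
    · intro n m x hx hgx
      have hx' : x ∈ (kosR xs hxs).gr n ((p ^ e : ℕ) * m + 0) := hx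
      refine ⟨⟨x, hgx⟩, ?_, rfl⟩
      show x ∈ (kosR xs hxs).gr (n - 0) ((p ^ e : ℕ) * (m - 0))
      rw [sub_zero, sub_zero]
      rw [add_zero] at hx'
      exact hx'
    · intro n m x hx
      have hx' : x ∈ (if n = 0 ∧ m = 0 then ⊤ else ⊥ : AddSubgroup (R ⧸ irr 𝒜)) := hx
      by_cases h1 : n = 0 ∧ m = 0
      · obtain ⟨r, hr⟩ := Ideal.Quotient.mk_surjective x
        refine ⟨KZemb xs hxs (GradedRing.proj 𝒜 0 r), ?_, ?_⟩
        · show KZemb xs hxs (GradedRing.proj 𝒜 0 r) ∈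
            (kosR xs hxs).gr (n - 0) ((p ^ e : ℕ) * (m - 0) + 0)
          rw [h1.1, h1.2, sub_zero, mul_zero, add_zero, KZemb_mem]
          refine ⟨_, ?_, rfl⟩
          rw [if_pos le_rfl, GradedRing.proj_apply]
          simp
        · show Ideal.Quotient.mk (irr 𝒜) (KZaug xs hxs (KZemb xs hxs (GradedRing.proj 𝒜 0 r))) = x
          rw [KZaug_emb, ← hr, Ideal.Quotient.eq, KZ_irr_iff, map_sub]
          rw [GradedRing.proj_apply, GradedRing.proj_apply]
          simp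
      · rw [if_neg h1] at hx'
        have hx0 : x = 0 := hx'
        rw [hx0]
        exact ⟨0, AddSubgroup.zero_mem _, map_zero _⟩
  · intro i j hij a ha (x : R ⧸ irr 𝒜)
    show Ideal.Quotient.mk (irr 𝒜) (iterateFrobenius R p e (π.toR a)) * x = 0
    rw [Ideal.Quotient.eq_zero_iff_mem.2 (he i j hij a ha), zero_mul]
  · intro h1
    have h2 : (if (0 : ℤ) = 0 ∧ (0 : ℤ) = 0 then ⊤ else ⊥ : AddSubgroup (R ⧸ irr 𝒜)) = ⊥ := h1
    rw [if_pos ⟨rfl, rfl⟩] at h2
    have h3 : (Ideal.Quotient.mk (irr 𝒜) 1) ∈ (⊥ : AddSubgroup (R ⧸ irr 𝒜)) := by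
      rw [← h2]; exact AddSubgroup.mem_top _
    have h4 : Ideal.Quotient.mk (irr 𝒜) 1 = 0 := h3
    rw [Ideal.Quotient.eq_zero_iff_mem, KZ_irr_iff, GradedRing.proj_apply,
      DirectSum.decompose_of_mem_same 𝒜 SetLike.GradedOne.one_mem] at h4
    have := h.nontriv
    exact one_ne_zero h4
  · intro l m hV
    by_cases hl : l ≤ 0
    · exact hlow l m hl
    · exact hlift l m (by omega) hV

end FV
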