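import Pool.Agent.helper37.FV.RG
import Pool.Agent.helper63.FV.KZ1
import Pool.Agent.helper63.FV.KZ2
import Pool.Agent.helper63.FV.KZ3

/-!
# MP_51fbee_al : Koszul complex of `R` (final statements)
-/

namespace FV

universe u

variable {k : Type u} [Field k] {R : Type u} [CommRing R] [Algebra k R]
  {𝒜 : ℕ → Submodule k R} [GradedAlgebra 𝒜]

/-- finiteness of the Koszul homology -/
theorem kos_bounded (h : StdGraded 𝒜) (xs : List R) (hxs : ∀ x ∈ xs, x ∈ 𝒜 1)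
    (hspan : Submodule.span k {x | x ∈ xs} = 𝒜 1) :
    ∃ c : ℤ, ∀ l m, c < m → (kosR xs hxs).bdg.Van l m :=
  kos_bounded_of (mem_mul_one h) h xs hxs hspan

/-- homology in homological degree `0` -/
theorem kos_zero (h : StdGraded 𝒜) (xs : List R) (hxs : ∀ x ∈ xs, x ∈ 𝒜 1)
    (hspan : Submodule.span k {x | x ∈ xs} = 𝒜 1) (m : ℤ) (hm : m ≠ 0) :
    (kosR xs hxs).bdg.Van 0 m :=
  kos_zero_of (mem_mul_one h) xs hxs hspan m hm

/-- the augmentation of the Koszul complex, after applying `V_0(q, -)` -/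
theorem kos_aug (p : ℕ) [ExpChar R p] (e : ℕ) (h : StdGraded 𝒜) (xs : List R)
    (hxs : ∀ x ∈ xs, x ∈ 𝒜 1) (hspan : Submodule.span k {x | x ∈ xs} = 𝒜 1)
    {M : DGA k} (π : DGA.Hom M (ofRing 𝒜)) :
    ∃ (N' Kk : DGMod M), Nonempty (SES N' (DGMod.ver π p e 0 (kosR xs hxs)) Kk 0 0 0 0) ∧
      (∀ x, Kk.d x = 0) ∧
      (∀ i j, (i, j) ≠ ((0 : ℤ), (0 : ℤ)) → ∀ a ∈ M.gr i j, ∀ x : Kk.N, a • x = 0) ∧
      Kk.gr 0 0 ≠ ⊥ ∧
      (∀ l m, l ≤ 0 → N'.bdg.Van l m) ∧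
      (∀ l m, (kosR xs hxs).bdg.Van l ((p ^ e : ℕ) * m) → N'.bdg.Van l m) :=
  kos_aug_of p e h xs hxs (fun m hm => kos_zero h xs hxs hspan m hm) π

end FV
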