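import Pool.Agent.helper92.FV.Defs2

/-!
# MP_51fbee_al : basic facts on the Koszul complex of `R`
-/

namespace FV

universe u

variable {k : Type u} [Field k] {R : Type u} [CommRing R] [Algebra k R]
  {𝒜 : ℕ → Submodule k R} [GradedAlgebra 𝒜]

omit [GradedAlgebra 𝒜] in
lemma KZ_tail {x : R} {xs : List R} (hxs : ∀ y ∈ x :: xs, y ∈ 𝒜 1) : ∀ y ∈ xs, y ∈ 𝒜 1 :=
  fun y hy => hxs y (by simp [hy])

/-- pairs -/
def KZp (x : R) (xs : List R) (hxs : ∀ y ∈ x :: xs, y ∈ 𝒜 1)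
    (a b : (kosR xs (KZ_tail hxs)).N) : (kosR (x :: xs) hxs).N := (a, b)

lemma KZp_exists (x : R) (xs : List R) (hxs : ∀ y ∈ x :: xs, y ∈ 𝒜 1)
    (p : (kosR (x :: xs) hxs).N) : ∃ a b, p = KZp x xs hxs a b := ⟨p.1, p.2, rfl⟩

/-- first projection -/
def KZfst (x : R) (xs : List R) (hxs : ∀ y ∈ x :: xs, y ∈ 𝒜 1) :
    (kosR (x :: xs) hxs).N →+ (kosR xs (KZ_tail hxs)).N :=
  AddMonoidHom.fst _ _

/-- second projection -/
def KZsnd (x : R) (xs : List R) (hxs : ∀ y ∈ x :: xs, y ∈ 𝒜 1) :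
    (kosR (x :: xs) hxs).N →+ (kosR xs (KZ_tail hxs)).N :=
  AddMonoidHom.snd _ _

/-- inclusion of the first component -/
def KZinl (x : R) (xs : List R) (hxs : ∀ y ∈ x :: xs, y ∈ 𝒜 1) :
    (kosR xs (KZ_tail hxs)).N →+ (kosR (x :: xs) hxs).N :=
  AddMonoidHom.inl _ _

section pairs

variable (x : R) (xs : List R) (hxs : ∀ y ∈ x :: xs, y ∈ 𝒜 1)
  (a b a' b' : (kosR xs (KZ_tail hxs)).N) (r : R) (l m : ℤ)

lemma KZfst_p : KZfst x xs hxs (KZp x xs hxs a b) = a := rfl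

lemma KZsnd_p : KZsnd x xs hxs (KZp x xs hxs a b) = b := rfl

lemma KZinl_eq : KZinl x xs hxs a = KZp x xs hxs a 0 := rfl

lemma KZp_add : KZp x xs hxs a b + KZp x xs hxs a' b' = KZp x xs hxs (a + a') (b + b') := rfl

lemma KZp_zero : KZp x xs hxs 0 0 = 0 := rfl

lemma KZp_smul : r • KZp x xs hxs a b = KZp x xs hxs (r • a) (r • b) := rfl

lemma KZp_d : (kosR (x :: xs) hxs).d (KZp x xs hxs a b) =
    KZp x xs hxs ((kosR xs (KZ_tail hxs)).d a + x • b) (- (kosR xs (KZ_tail hxs)).d b) := rfl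

lemma KZp_mem : KZp x xs hxs a b ∈ (kosR (x :: xs) hxs).gr l m ↔
    a ∈ (kosR xs (KZ_tail hxs)).gr l m ∧ b ∈ (kosR xs (KZ_tail hxs)).gr (l - 1) (m - 1) :=
  Iff.rfl

lemma KZp_inj (h : KZp x xs hxs a b = KZp x xs hxs a' b') : a = a' ∧ b = b' :=
  ⟨congrArg (KZfst x xs hxs) h, congrArg (KZsnd x xs hxs) h⟩

end pairs

/-- the element `r` of the trivial Koszul complex -/
def KZr (hxs : ∀ y ∈ ([] : List R), y ∈ 𝒜 1) (r : R) : (kosR [] hxs).N := r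

lemma KZr_exists (hxs : ∀ y ∈ ([] : List R), y ∈ 𝒜 1) (x : (kosR [] hxs).N) :
    ∃ r, x = KZr hxs r := ⟨x, rfl⟩

/-- membership in the pieces of the trivial Koszul complex -/
lemma KZr_mem (hxs : ∀ y ∈ ([] : List R), y ∈ 𝒜 1) (l m : ℤ) (r : R) :
    KZr hxs r ∈ (kosR [] hxs).gr l m ↔
      r ∈ (if l = 0 ∧ 0 ≤ m then 𝒜 m.toNat else ⊥ : Submodule k R) := Iff.rfl

lemma KZr_add (hxs : ∀ y ∈ ([] : List R), y ∈ 𝒜 1) (r s : R) :
    KZr hxs (r + s) = KZr hxs r + KZr hxs s := rfl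

lemma KZr_smul (hxs : ∀ y ∈ ([] : List R), y ∈ 𝒜 1) (r s : R) :
    r • KZr hxs s = KZr hxs (r * s) := rfl

lemma KZr_zero (hxs : ∀ y ∈ ([] : List R), y ∈ 𝒜 1) : KZr hxs 0 = 0 := rfl

lemma KZr_d (hxs : ∀ y ∈ ([] : List R), y ∈ 𝒜 1) (x) : (kosR [] hxs).d x = 0 := rfl

lemma KZ_neg (xs : List R) (hxs : ∀ x ∈ xs, x ∈ 𝒜 1) (l m : ℤ) (hl : l < 0 ∨ m < 0) :
    (kosR xs hxs).gr l m = ⊥ := by
  induction xs generalizing l m with
  | nil =>
    rw [eq_bot_iff]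
    intro x hx
    obtain ⟨r, hr⟩ := KZr_exists hxs x
    rw [hr, KZr_mem, if_neg (by omega)] at hx
    rw [hr, (Submodule.mem_bot k).mp hx, KZr_zero]
    exact AddSubgroup.zero_mem _
  | cons y xs ih =>
    rw [eq_bot_iff]
    intro p hx
    obtain ⟨a, b, rfl⟩ := KZp_exists y xs hxs p
    obtain ⟨ha, hb⟩ := (KZp_mem y xs hxs a b l m).1 hx
    rw [ih (KZ_tail hxs) l m hl] at ha
    rw [ih (KZ_tail hxs) (l - 1) (m - 1) (by omega)] at hb
    have ha' : a = 0 := ha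
    have hb' : b = 0 := hb
    rw [ha', hb', KZp_zero]
    exact AddSubgroup.zero_mem _

/-- the embedding of `R` as homological degree zero -/
def KZemb : (xs : List R) → (hxs : ∀ x ∈ xs, x ∈ 𝒜 1) → R → (kosR xs hxs).N
  | [], h, r => KZr h r
  | x :: xs, h, r => KZp x xs h (KZemb xs (KZ_tail h) r) 0

lemma KZemb_nil (hxs : ∀ y ∈ ([] : List R), y ∈ 𝒜 1) (r : R) : KZemb [] hxs r = KZr hxs r := rfl

lemma KZemb_cons (x : R) (xs : List R) (hxs : ∀ y ∈ x :: xs, y ∈ 𝒜 1) (r : R) :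
    KZemb (x :: xs) hxs r = KZp x xs hxs (KZemb xs (KZ_tail hxs) r) 0 := rfl

lemma KZemb_zero (xs : List R) (hxs : ∀ x ∈ xs, x ∈ 𝒜 1) :
    KZemb xs hxs 0 = 0 := by
  induction xs with
  | nil => rfl
  | cons y xs ih => rw [KZemb_cons, ih, KZp_zero]

lemma KZemb_add (xs : List R) (hxs : ∀ x ∈ xs, x ∈ 𝒜 1) (r s : R) :
    KZemb xs hxs (r + s) = KZemb xs hxs r + KZemb xs hxs s := by
  induction xs with
  | nil => rfl
  | cons y xs ih => rw [KZemb_cons, KZemb_cons, KZemb_cons, KZp_add, ih, add_zero]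

lemma KZemb_smul (xs : List R) (hxs : ∀ x ∈ xs, x ∈ 𝒜 1) (r s : R) :
    KZemb xs hxs (r * s) = r • KZemb xs hxs s := by
  induction xs with
  | nil => rfl
  | cons y xs ih => rw [KZemb_cons, KZemb_cons, KZp_smul, ih, smul_zero]

lemma KZemb_mem (xs : List R) (hxs : ∀ x ∈ xs, x ∈ 𝒜 1) (m : ℤ) (x : (kosR xs hxs).N) :
    x ∈ (kosR xs hxs).gr 0 m ↔
      ∃ r ∈ (if 0 ≤ m then 𝒜 m.toNat else ⊥ : Submodule k R), KZemb xs hxs r = x := by
  induction xs with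
  | nil =>
    obtain ⟨s, hs⟩ := KZr_exists hxs x
    rw [hs, KZr_mem]
    constructor
    · intro h
      refine ⟨s, ?_, rfl⟩
      by_cases hm : 0 ≤ m
      · rw [if_pos ⟨rfl, hm⟩] at h
        rw [if_pos hm]; exact h
      · rw [if_neg (by omega)] at h
        rw [if_neg hm]; exact h
    · rintro ⟨r, hr, hrs⟩
      have hrs' : r = s := hrs
      subst hrs'
      by_cases hm : 0 ≤ m
      · rw [if_pos hm] at hr
        rw [if_pos ⟨rfl, hm⟩]; exact hr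
      · rw [if_neg hm] at hr
        rw [if_neg (by omega)]; exact hr
  | cons y xs ih =>
    obtain ⟨a, b, rfl⟩ := KZp_exists y xs hxs x
    rw [KZp_mem, ih (KZ_tail hxs) a]
    constructor
    · rintro ⟨⟨r, hr, rfl⟩, hb⟩
      refine ⟨r, hr, ?_⟩
      rw [KZ_neg xs (KZ_tail hxs) (0 - 1) (m - 1) (by omega)] at hb
      have hb' : b = 0 := hb
      rw [hb']; rfl
    · rintro ⟨r, hr, h⟩
      obtain ⟨h1, h2⟩ := KZp_inj y xs hxs _ _ _ _ h
      refine ⟨⟨r, hr, h1⟩, ?_⟩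
      rw [← h2]
      exact AddSubgroup.zero_mem _

lemma KZemb_d (xs : List R) (hxs : ∀ x ∈ xs, x ∈ 𝒜 1) (r : R) :
    (kosR xs hxs).d (KZemb xs hxs r) = 0 := by
  induction xs with
  | nil => rfl
  | cons y xs ih =>
    rw [KZemb_cons, KZp_d, ih, smul_zero, map_zero, add_zero, neg_zero, KZp_zero]

/-- products of homogeneous elements with the generators are boundaries -/
lemma KZemb_bd (xs : List R) (hxs : ∀ x ∈ xs, x ∈ 𝒜 1) (y : R) (hy : y ∈ xs) (m : ℕ) (r : R)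
    (hr : r ∈ 𝒜 m) : ∃ Y ∈ (kosR xs hxs).gr 1 (m + 1), (kosR xs hxs).d Y = KZemb xs hxs (y * r) := by
  induction xs with
  | nil => simp at hy
  | cons x xs ih =>
    by_cases hyx : y = x
    · subst hyx
      refine ⟨KZp y xs hxs 0 (KZemb xs (KZ_tail hxs) r), ?_, ?_⟩
      · rw [KZp_mem]
        refine ⟨AddSubgroup.zero_mem _, ?_⟩
        rw [show (1 : ℤ) - 1 = 0 by ring, KZemb_mem]
        refine ⟨r, ?_, rfl⟩
        rw [if_pos (by omega), show ((m : ℤ) + 1 - 1).toNat = m by omega]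
        exact hr
      · rw [KZp_d, KZemb_d, map_zero, zero_add, neg_zero, KZemb_cons, KZemb_smul]
    · have hy' : y ∈ xs := by
        rcases List.mem_cons.1 hy with h | h
        · exact absurd h hyx
        · exact h
      obtain ⟨Y, hY, hd⟩ := ih (KZ_tail hxs) hy'
      refine ⟨KZp x xs hxs Y 0, ?_, ?_⟩
      · rw [KZp_mem]
        exact ⟨hY, AddSubgroup.zero_mem _⟩
      · rw [KZp_d, hd, smul_zero, map_zero, add_zero, neg_zero, KZemb_cons]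

end FV
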